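import Pool.Agent.N931.PN.Stm2
import Pool.Agent.N144.EW.DetA
import Pool.Agent.H985R3.TA.STA

/-!
Project PN (helper931), part NXP: two arms in the bulk.
-/

set_option autoImplicit false

namespace Pool.Agent.N262.PN.NXP

open H974 H12S H389NS H984N H984P H342P Finset
open Pool.Agent.N116.EW
open Pool.Agent.N931.PN

theorem annUp : ∃ C : ℝ, 0 < C ∧ AnnUp C := by
  obtain ⟨C, hC, h⟩ := H985T.st_A
  exact ⟨C, hC, fun r R hr hR c1 c2 S => h r R hr hR c1 c2 S⟩

theorem wv_far {D : Dm} {z u : Vtx} (hu : u ∈ wv D) {m : ℤ} (h : m ≤ D.bd z) :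
    m ≤ sd u z := by
  obtain ⟨e, he, h1⟩ := hu
  obtain ⟨k1, k2, k3, k4⟩ := Pool.Agent.N144.EW.bd_le (D := D) (c := z)
  rw [Pool.Agent.N144.EW.le_sd_iff]
  obtain ⟨x, y, _ | _⟩ := e
  · rcases he with ⟨h2, _⟩ | ⟨_, h2, _⟩ | ⟨h2, _⟩
    · exact absurd h2 (by simp)
    · simp only at h2
      simp only [src_mk, tgt_false] at h1
      rcases h1 with rfl | rfl <;> simp only <;> omega
    · exact absurd h2 (by simp)
  · rcases he with ⟨_, h2, _⟩ | ⟨h2, _⟩ | ⟨_, h2, _⟩
    · simp only at h2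
      simp only [src_mk, tgt_true] at h1
      rcases h1 with rfl | rfl <;> simp only <;> omega
    · exact absurd h2 (by simp)
    · simp only at h2
      simp only [src_mk, tgt_true] at h1
      rcases h1 with rfl | rfl <;> simp only <;> omega

theorem main : S_NXP := by
  obtain ⟨C, hC, hA⟩ := annUp
  refine ⟨2 * C + 1, by positivity, ?_⟩
  intro D hD z d w hd hdw hw
  have hok : H974.Ok (hp : Edg → ℝ) := fun _ => by unfold hp; norm_num
  have hx : (0 : ℝ) ≤ ((d : ℝ) / w) ^ (1 / 4 : ℝ) := by positivity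
  by_cases h : d + 1 ≤ w
  · have h1 : Pr hp D.edges (NX D z d w) ≤ Pr hp D.edges
        (fun F => H12S.Crs z.1 z.2 (d + 1) w ↑F ∧
          H12S.DCrs z.1 z.2 (d + 1) w (↑(D.edges \ F) : Set Edg)) := by
      refine Pr_mono hok ?_
      rintro F _ ⟨hn1, hn2⟩
      obtain ⟨u, v, hu, hv, hr⟩ := hn1 (fun u hu => wv_far hu hw)
      obtain ⟨f, g, hf, hg, hr'⟩ := hn2 (fun f hf => Pool.Agent.N144.EW.outer_far hf hw)
      rw [Pool.Agent.N144.EW.sd_le_iff] at hu hf
      rw [Pool.Agent.N144.EW.le_sd_iff] at hv hg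
      refine ⟨⟨u, v, ?_, by omega, hr.mono Set.sdiff_subset⟩, ⟨f, g, ?_, by omega, hr'.mono ?_⟩⟩
      · unfold inR
        push_cast
        omega
      · unfold inR
        push_cast
        omega
      · rintro e ⟨h3, h4, _⟩
        rw [Finset.mem_coe, Finset.mem_sdiff]
        exact ⟨h3, fun h5 => h4 (Or.inl h5)⟩
    have h2 : Pr hp D.edges
        (fun F => H12S.Crs z.1 z.2 (d + 1) w ↑F ∧
          H12S.DCrs z.1 z.2 (d + 1) w (↑(D.edges \ F) : Set Edg)) ≤
          C * (((d + 1 : ℕ) : ℝ) / w) ^ (1 / 4 : ℝ) := hA (d + 1) w (by omega) h z.1 z.2 D.edges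
    have hd' : (1 : ℝ) ≤ d := by exact_mod_cast hd
    have h3 : (((d + 1 : ℕ) : ℝ) / w) ^ (1 / 4 : ℝ) ≤ 2 * ((d : ℝ) / w) ^ (1 / 4 : ℝ) := by
      calc (((d + 1 : ℕ) : ℝ) / w) ^ (1 / 4 : ℝ) ≤ (2 * ((d : ℝ) / w)) ^ (1 / 4 : ℝ) := by
            refine Real.rpow_le_rpow (by positivity) ?_ (by norm_num)
            rw [← mul_div_assoc]
            push_cast
            gcongr
            linarith
        _ = (2 : ℝ) ^ (1 / 4 : ℝ) * ((d : ℝ) / w) ^ (1 / 4 : ℝ) :=
            Real.mul_rpow (by norm_num) (by positivity)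
        _ ≤ 2 * ((d : ℝ) / w) ^ (1 / 4 : ℝ) := by
            refine mul_le_mul_of_nonneg_right ?_ hx
            calc (2 : ℝ) ^ (1 / 4 : ℝ) ≤ (2 : ℝ) ^ (1 : ℝ) :=
                  Real.rpow_le_rpow_of_exponent_le (by norm_num) (by norm_num)
              _ = 2 := by norm_num
    nlinarith
  · have hwd : w = d := by omega
    have hd0 : (d : ℝ) ≠ 0 := by
      have : d ≠ 0 := by omega
      exact_mod_cast this
    rw [hwd, div_self hd0, Real.one_rpow]
    have := Pr_le_one hok D.edges (NX D z d d)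
    linarith

end Pool.Agent.N262.PN.NXP
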