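import Pool.Agent.N931.PN.Stm
import Pool.Agent.H974R2.Plan4

/-!
Project PN (helper931), part WW: long excursion of faces near the wired arc.
-/

set_option autoImplicit false

namespace Pool.Agent.N262.PN.WW

open H974 H12S H389NS H984N H984P H342P Finset
open Pool.Agent.N116.EW
open Pool.Agent.N931.PN

/-! ### The lattice of faces -/

/-- The lower left face of a vertex is sent to the vertex. -/
def sh (v : Vtx) : Vtx := (v.1 + 1, v.2 + 1)

/-- The inverse map. -/
def us (v : Vtx) : Vtx := (v.1 - 1, v.2 - 1)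

theorem sh_us (v : Vtx) : sh (us v) = v := by
  obtain ⟨a, b⟩ := v
  simp [sh, us]

theorem us_sh (v : Vtx) : us (sh v) = v := by
  obtain ⟨a, b⟩ := v
  simp [sh, us]

theorem dsrc_dl (e : Edg) : dsrc (dl e) = us (src e) := by
  obtain ⟨x, y, _ | _⟩ := e <;> simp [us]

theorem dtgt_dl (e : Edg) : dtgt (dl e) = us (tgt e) := by
  obtain ⟨x, y, _ | _⟩ := e <;> simp [us]

theorem reach_sh {S : Set Edg} {f g : Vtx} (h : DReach S f g) :
    Reach {e | dl e ∈ S} (sh f) (sh g) := by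
  induction h with
  | refl => exact Reach.refl _ _
  | tail _ hs ih =>
    refine ih.trans (Adj.reach ?_)
    obtain ⟨e, he, hc⟩ := hs
    refine ⟨dl.symm e, by simpa using he, ?_⟩
    have h1 : dsrc e = us (src (dl.symm e)) := by rw [← dsrc_dl, Equiv.apply_symm_apply]
    have h2 : dtgt e = us (tgt (dl.symm e)) := by rw [← dtgt_dl, Equiv.apply_symm_apply]
    rcases hc with ⟨h3, h4⟩ | ⟨h3, h4⟩
    · left
      rw [← h3, ← h4, h1, h2, sh_us, sh_us]
      exact ⟨rfl, rfl⟩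
    · right
      rw [← h3, ← h4, h1, h2, sh_us, sh_us]
      exact ⟨rfl, rfl⟩

theorem dreach_us {S : Set Edg} {u v : Vtx} (h : Reach {e | dl e ∈ S} u v) :
    DReach S (us u) (us v) := by
  induction h with
  | refl => exact DReach.refl _ _
  | tail _ hs ih =>
    refine ih.trans (DAdj.reach ?_)
    obtain ⟨e, he, hc⟩ := hs
    refine ⟨dl e, he, ?_⟩
    rw [dsrc_dl, dtgt_dl]
    rcases hc with ⟨h3, h4⟩ | ⟨h3, h4⟩
    · left
      rw [h3, h4]
      exact ⟨rfl, rfl⟩
    · right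
      rw [h3, h4]
      exact ⟨rfl, rfl⟩

/-! ### Distances and annuli -/

theorem sd_le {u z : Vtx} {k : ℤ} : sd u z ≤ k ↔
    (z.1 - k ≤ u.1 ∧ u.1 ≤ z.1 + k) ∧ (z.2 - k ≤ u.2 ∧ u.2 ≤ z.2 + k) := by
  unfold sd
  rw [max_le_iff, abs_le, abs_le]
  constructor <;> intro h <;> omega

theorem le_sd {u z : Vtx} {k : ℤ} : k ≤ sd u z ↔
    (u.1 ≤ z.1 - k ∨ z.1 + k ≤ u.1) ∨ (u.2 ≤ z.2 - k ∨ z.2 + k ≤ u.2) := by
  unfold sd
  rw [le_max_iff, le_abs', le_abs']
  constructor <;> intro h <;> omega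

theorem mem_AN {z : Vtx} {d R : ℕ} {e : Edg} : e ∈ AN z d R ↔ e ∈ blk z R ∧ e ∉ blk z d := by
  unfold AN
  exact Finset.mem_sdiff

theorem AN_dual {z : Vtx} {d R : ℕ} (g : Edg) {u v : Vtx}
    (h : (dsrc g = u ∧ dtgt g = v) ∨ (dsrc g = v ∧ dtgt g = u)) (h1 : (d : ℤ) + 2 ≤ sd v z)
    (h2 : sd u z ≤ (R : ℤ) - 1) : g ∈ AN z d R := by
  rw [mem_AN]
  rw [le_sd] at h1
  rw [sd_le] at h2
  obtain ⟨x, y, _ | _⟩ := g
  · simp only [dsrc_false, dtgt_mk] at h
    unfold blk
    rw [mem_RE_false, mem_RE_false]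
    rcases h with ⟨rfl, rfl⟩ | ⟨rfl, rfl⟩ <;> simp only at h1 h2 <;> omega
  · simp only [dsrc_true, dtgt_mk] at h
    unfold blk
    rw [mem_RE_true, mem_RE_true]
    rcases h with ⟨rfl, rfl⟩ | ⟨rfl, rfl⟩ <;> simp only at h1 h2 <;> omega

theorem AN_primal {z : Vtx} {d R : ℕ} (g : Edg) {u v : Vtx}
    (h : (src g = u ∧ tgt g = v) ∨ (src g = v ∧ tgt g = u)) (h1 : (d : ℤ) + 1 ≤ sd v z)
    (h2 : sd u z ≤ (R : ℤ) - 1) : g ∈ AN z d R := by
  rw [mem_AN]
  rw [le_sd] at h1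
  rw [sd_le] at h2
  obtain ⟨x, y, _ | _⟩ := g
  · simp only [src_mk, tgt_false] at h
    unfold blk
    rw [mem_RE_false, mem_RE_false]
    rcases h with ⟨rfl, rfl⟩ | ⟨rfl, rfl⟩ <;> simp only at h1 h2 <;> omega
  · simp only [src_mk, tgt_true] at h
    unfold blk
    rw [mem_RE_true, mem_RE_true]
    rcases h with ⟨rfl, rfl⟩ | ⟨rfl, rfl⟩ <;> simp only at h1 h2 <;> omega

theorem cut_dual {A : Set Edg} {z : Vtx} {d R : ℕ} (hdR : d + 4 ≤ R) {u v : Vtx}
    (hv : (R : ℤ) ≤ sd v z) (h : DReach A u v) (hu : sd u z ≤ (d : ℤ) + 1) :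
    ∃ f g, sd f z ≤ (d : ℤ) + 1 ∧ (R : ℤ) ≤ sd g z ∧ DReach A u f ∧
      DReach (A ∩ ↑(AN z d R)) f g := by
  have key : ∀ u, DReach A u v →
      (∃ f g, sd f z ≤ (d : ℤ) + 1 ∧ (R : ℤ) ≤ sd g z ∧ DReach A u f ∧
        DReach (A ∩ ↑(AN z d R)) f g) ∨
      ((d : ℤ) + 2 ≤ sd u z ∧ ∃ g, (R : ℤ) ≤ sd g z ∧ DReach (A ∩ ↑(AN z d R)) u g) := by
    intro u hu
    induction hu using Relation.ReflTransGen.head_induction_on with
    | refl => exact Or.inr ⟨by omega, v, hv, DReach.refl _ _⟩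
    | head hs _hr ih =>
      rename_i u u'
      rcases ih with ⟨f, g, h1, h2, h3, h4⟩ | ⟨h1, g, h2, h3⟩
      · exact Or.inl ⟨f, g, h1, h2, (DAdj.reach hs).trans h3, h4⟩
      · obtain ⟨e, he, hc⟩ := hs
        by_cases hR : (R : ℤ) ≤ sd u z
        · exact Or.inr ⟨by omega, u, hR, DReach.refl _ _⟩
        · have hA := AN_dual (R := R) e hc h1 (by omega)
          have hs' : DAdj (A ∩ ↑(AN z d R)) u u' := ⟨e, ⟨he, hA⟩, hc⟩
          have hr : DReach (A ∩ ↑(AN z d R)) u g := hs'.reach.trans h3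
          by_cases hd : sd u z ≤ (d : ℤ) + 1
          · exact Or.inl ⟨u, g, hd, h2, DReach.refl _ _, hr⟩
          · exact Or.inr ⟨by omega, g, h2, hr⟩
  rcases key u h with h1 | ⟨h1, _⟩
  · exact h1
  · omega

theorem cut_primal {A : Set Edg} {z : Vtx} {d R : ℕ} (hdR : d + 4 ≤ R) {u v : Vtx}
    (hv : (R : ℤ) ≤ sd v z) (h : Reach A u v) (hu : sd u z ≤ (d : ℤ)) :
    ∃ f g, sd f z ≤ (d : ℤ) ∧ (R : ℤ) ≤ sd g z ∧ Reach (A ∩ ↑(AN z d R)) f g := by
  have key : ∀ u, Reach A u v →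
      (∃ f g, sd f z ≤ (d : ℤ) ∧ (R : ℤ) ≤ sd g z ∧
        Reach (A ∩ ↑(AN z d R)) f g) ∨
      ((d : ℤ) + 1 ≤ sd u z ∧ ∃ g, (R : ℤ) ≤ sd g z ∧ Reach (A ∩ ↑(AN z d R)) u g) := by
    intro u hu
    induction hu using Relation.ReflTransGen.head_induction_on with
    | refl => exact Or.inr ⟨by omega, v, hv, Reach.refl _ _⟩
    | head hs _hr ih =>
      rename_i u u'
      rcases ih with ⟨f, g, h1, h2, h4⟩ | ⟨h1, g, h2, h3⟩
      · exact Or.inl ⟨f, g, h1, h2, h4⟩
      · obtain ⟨e, he, hc⟩ := hs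
        by_cases hR : (R : ℤ) ≤ sd u z
        · exact Or.inr ⟨by omega, u, hR, Reach.refl _ _⟩
        · have hA := AN_primal (R := R) e hc h1 (by omega)
          have hs' : Adj (A ∩ ↑(AN z d R)) u u' := ⟨e, ⟨he, hA⟩, hc⟩
          have hr : Reach (A ∩ ↑(AN z d R)) u g := hs'.reach.trans h3
          by_cases hd : sd u z ≤ (d : ℤ)
          · exact Or.inl ⟨u, g, hd, h2, hr⟩
          · exact Or.inr ⟨by omega, g, h2, hr⟩
  rcases key u h with h1 | ⟨h1, _⟩
  · exact h1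
  · omega

/-! ### Rectangles are connected -/

theorem row_conn {p1 p2 q1 q2 : ℤ} {E : Set Edg} (h : ∀ g ∈ RE p1 p2 q1 q2, g ∈ E) (n : ℕ) :
    ∀ x y : ℤ, p1 ≤ x → x + n ≤ p2 → q1 ≤ y → y ≤ q2 → Reach E (x, y) (x + n, y) := by
  induction n with
  | zero =>
    intro x y _ _ _ _
    simp only [Nat.cast_zero, add_zero]
    exact Reach.refl _ _
  | succ n ih =>
    intro x y h1 h2 h3 h4
    push_cast at h2 ⊢
    refine (ih x y h1 (by omega) h3 h4).trans (Adj.reach ⟨(x + n, y, true), ?_, Or.inl ⟨rfl, ?_⟩⟩)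
    · apply h
      rw [mem_RE_true]
      omega
    · rw [tgt_true, add_assoc]

theorem col_conn {p1 p2 q1 q2 : ℤ} {E : Set Edg} (h : ∀ g ∈ RE p1 p2 q1 q2, g ∈ E) (n : ℕ) :
    ∀ x y : ℤ, p1 ≤ x → x ≤ p2 → q1 ≤ y → y + n ≤ q2 → Reach E (x, y) (x, y + n) := by
  induction n with
  | zero =>
    intro x y _ _ _ _
    simp only [Nat.cast_zero, add_zero]
    exact Reach.refl _ _
  | succ n ih =>
    intro x y h1 h2 h3 h4
    push_cast at h4 ⊢
    refine (ih x y h1 h2 h3 (by omega)).trans (Adj.reach ⟨(x, y + n, false), ?_, Or.inl ⟨rfl, ?_⟩⟩)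
    · apply h
      rw [mem_RE_false]
      omega
    · rw [tgt_false, add_assoc]

theorem rect_conn {p1 p2 q1 q2 : ℤ} {E : Set Edg} (h : ∀ g ∈ RE p1 p2 q1 q2, g ∈ E) {u v : Vtx}
    (hu : inR p1 p2 q1 q2 u) (hv : inR p1 p2 q1 q2 v) : Reach E u v := by
  obtain ⟨u1, u2⟩ := u
  obtain ⟨v1, v2⟩ := v
  obtain ⟨⟨a1, a2⟩, ⟨a3, a4⟩⟩ := hu
  obtain ⟨⟨b1, b2⟩, ⟨b3, b4⟩⟩ := hv
  simp only at a1 a2 a3 a4 b1 b2 b3 b4
  have hr : Reach E (u1, u2) (v1, u2) := by
    rcases le_total u1 v1 with hc | hc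
    · obtain ⟨n, hn⟩ := Int.eq_ofNat_of_zero_le (sub_nonneg.mpr hc)
      have := row_conn h n u1 u2 a1 (by omega) a3 a4
      rwa [show u1 + (n : ℤ) = v1 by omega] at this
    · obtain ⟨n, hn⟩ := Int.eq_ofNat_of_zero_le (sub_nonneg.mpr hc)
      have := row_conn h n v1 u2 b1 (by omega) a3 a4
      rw [show v1 + (n : ℤ) = u1 by omega] at this
      exact this.symm
  refine hr.trans ?_
  rcases le_total u2 v2 with hc | hc
  · obtain ⟨n, hn⟩ := Int.eq_ofNat_of_zero_le (sub_nonneg.mpr hc)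
    have := col_conn h n v1 u2 b1 b2 a3 (by omega)
    rwa [show u2 + (n : ℤ) = v2 by omega] at this
  · obtain ⟨n, hn⟩ := Int.eq_ofNat_of_zero_le (sub_nonneg.mpr hc)
    have := col_conn h n v1 v2 b1 b2 b3 (by omega)
    rw [show v2 + (n : ℤ) = u2 by omega] at this
    exact this.symm

/-! ### Wired edges -/

/-- The faces outside along the wired arc. -/
def WO (D : Dm) : Set Vtx := {v | (v.2 = D.h ∧ D.l ≤ v.1 ∧ v.1 < D.t) ∨
  (v.1 = D.l - 1 ∧ 0 ≤ v.2 ∧ v.2 < D.h) ∨ (v.2 = -1 ∧ D.l ≤ v.1 ∧ v.1 < 0)}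

/-- The faces next to `g` are `u` and `v`. -/
def DI (g : Edg) (u v : Vtx) : Prop := (dsrc g = u ∧ dtgt g = v) ∨ (dsrc g = v ∧ dtgt g = u)

theorem WO_wir {D : Dm} (hD : D.Ok) {g : Edg} (hg : g ∈ D.edges) {u v : Vtx} (h : DI g u v)
    (hu : u ∈ WO D) : g ∈ D.wir := by
  obtain ⟨h1, h2, h3, h4, h5⟩ := hD
  unfold Dm.edges at hg
  unfold Dm.wir
  rw [Set.mem_ofPred_eq]
  unfold WO at hu
  rw [Set.mem_ofPred_eq] at hu
  unfold DI at h
  obtain ⟨x, y, _ | _⟩ := g
  · simp only [dsrc_false, dtgt_mk] at h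
    rw [mem_RE_false] at hg
    simp only [Bool.false_eq_true, false_and, true_and, false_or, or_false]
    rcases h with ⟨rfl, rfl⟩ | ⟨rfl, rfl⟩ <;> simp only at hu <;> omega
  · simp only [dsrc_true, dtgt_mk] at h
    rw [mem_RE_true] at hg
    simp only [Bool.true_eq_false, false_and, true_and, false_or, or_false]
    rcases h with ⟨rfl, rfl⟩ | ⟨rfl, rfl⟩ <;> simp only at hu <;> omega

theorem wir_WO {D : Dm} {g : Edg} (hg : g ∈ D.wir) {u v : Vtx} (h : DI g u v) :
    u ∈ WO D ∨ v ∈ WO D := by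
  unfold Dm.wir at hg
  rw [Set.mem_ofPred_eq] at hg
  unfold WO
  rw [Set.mem_ofPred_eq, Set.mem_ofPred_eq]
  unfold DI at h
  obtain ⟨x, y, _ | _⟩ := g
  · simp only [dsrc_false, dtgt_mk] at h
    simp only [Bool.false_eq_true, false_and, true_and, false_or, or_false] at hg
    rcases h with ⟨rfl, rfl⟩ | ⟨rfl, rfl⟩ <;> simp only <;> omega
  · simp only [dsrc_true, dtgt_mk] at h
    simp only [Bool.true_eq_false, false_and, true_and, false_or, or_false] at hg
    rcases h with ⟨rfl, rfl⟩ | ⟨rfl, rfl⟩ <;> simp only <;> omega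

theorem WO_unique {D : Dm} (hD : D.Ok) {g g' : Edg} (hg : g ∈ D.edges) (hg' : g' ∈ D.edges)
    {u v v' : Vtx} (h : DI g u v) (h' : DI g' u v') (hu : u ∈ WO D) : v = v' := by
  obtain ⟨h1, h2, h3, h4, h5⟩ := hD
  unfold Dm.edges at hg hg'
  unfold WO at hu
  rw [Set.mem_ofPred_eq] at hu
  unfold DI at h h'
  obtain ⟨u1, u2⟩ := u
  obtain ⟨v1, v2⟩ := v
  obtain ⟨w1, w2⟩ := v'
  simp only at hu
  obtain ⟨x, y, _ | _⟩ := g <;> obtain ⟨x', y', _ | _⟩ := g' <;>
    simp only [dsrc_false, dsrc_true, dtgt_mk, Prod.mk.injEq] at h h' <;>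
    simp only [mem_RE_false, mem_RE_true] at hg hg' <;>
    rw [Prod.mk.injEq] <;> omega

theorem dclu_step {D : Dm} {G : Finset Edg} {g : Edg} (hg : g ∈ D.edges) (hc : g ∉ D.cfg G)
    {u v : Vtx} (h : DI g u v) (hu : u ∈ D.dclu G) : v ∈ D.dclu G := by
  obtain ⟨g0, hg0, hr⟩ := hu
  exact ⟨g0, hg0, hr.trans (DAdj.reach ⟨g, ⟨hg, hc⟩, h⟩)⟩

theorem dclu_WO {D : Dm} (hD : D.Ok) {G : Finset Edg} {v : Vtx} (hv : v ∈ D.dclu G) :
    v ∉ WO D := by
  intro hw
  obtain ⟨g0, hg0, hr⟩ := hv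
  rcases Relation.ReflTransGen.cases_tail hr with h | ⟨v', _, e, ⟨he, hc⟩, hi⟩
  · rw [h] at hw
    obtain ⟨h1, h2, h3, h4, h5⟩ := hD
    unfold WO at hw
    unfold Dm.outer at hg0
    rw [Set.mem_ofPred_eq] at hw hg0
    omega
  · exact hc (Or.inr (WO_wir hD he (Or.symm hi) hw))

theorem cE_K {D : Dm} (hD : D.Ok) {G : Finset Edg} {z : Vtx} {d R : ℕ} {f v : Vtx}
    (hf : f ∈ D.dclu G) (h : DReach (cE D z d R G) f v) :
    v ∈ D.dclu G ∨ (v ∈ WO D ∧ ∀ g ∈ D.edges, ∀ v', DI g v v' → v' ∈ D.dclu G) := by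
  induction h with
  | refl => exact Or.inl hf
  | tail _hr hs ih =>
    rename_i v1 v2
    obtain ⟨g, ⟨hg1, hg2, _⟩, hi⟩ := hs
    have hi' : DI g v1 v2 := hi
    rcases ih with ih | ⟨ih1, ih2⟩
    · by_cases hw : g ∈ D.wir
      · right
        rcases wir_WO hw hi' with h1 | h1
        · exact absurd h1 (dclu_WO hD ih)
        · refine ⟨h1, ?_⟩
          intro g' hg' v' hv'
          have := WO_unique hD hg1 hg' (Or.symm hi') hv' h1
          rw [← this]
          exact ih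
      · left
        refine dclu_step hg1 ?_ hi' ih
        rintro (h1 | h1)
        · exact hg2 h1
        · exact hw h1
    · exact Or.inl (ih2 g hg1 v2 hi')

/-! ### Near the wired side -/

/-- Edges incident to a vertex. -/
def PI (g : Edg) (u v : Vtx) : Prop := (src g = u ∧ tgt g = v) ∨ (src g = v ∧ tgt g = u)

theorem exX {D : Dm} (hD : D.Ok) {z : Vtx} {R : ℕ} (hN : Near1 D z R)
    (hout : ∀ f ∈ D.outer, (R : ℤ) + 2 ≤ sd f z) {E : Set Edg}
    (h2 : ∀ g : Edg, dl g ∈ RE (z.1 - R - 1) (z.1 + R) (z.2 - R - 1) (z.2 + R) →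
      (g ∉ D.edges ∨ g ∈ D.wir) → g ∈ E) :
    ∃ X : Set Vtx, (∀ g : Edg, (g ∉ D.edges ∨ g ∈ D.wir) → ∀ v v', PI g v v' →
        sd v z ≤ (R : ℤ) → v ∈ X) ∧
      (∀ x ∈ X, ∀ x' ∈ X, sd x z ≤ (R : ℤ) → sd x' z ≤ (R : ℤ) → Reach E x x') := by
  obtain ⟨hz, hN⟩ := hN
  obtain ⟨⟨z1, z2⟩, ⟨z3, z4⟩⟩ := hz
  have hD' := hD
  obtain ⟨k1, k2, k3, k4, k5⟩ := hD'
  rcases hN with ⟨n1, n2, n3⟩ | ⟨n1, n2, n3⟩ | ⟨n1, n2, n3⟩ | ⟨n1, n2, n3⟩
  · -- bottom
    refine ⟨{v | v.2 ≤ 0}, ?_, ?_⟩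
    · intro g hg v v' hi hv
      rw [sd_le] at hv
      rw [Set.mem_ofPred_eq]
      unfold Dm.edges Dm.wir at hg
      rw [Set.mem_ofPred_eq] at hg
      unfold PI at hi
      obtain ⟨x, y, _ | _⟩ := g
      · simp only [src_mk, tgt_false] at hi
        rw [mem_RE_false] at hg
        simp only [Bool.false_eq_true, false_and, true_and, false_or, or_false] at hg
        rcases hi with ⟨rfl, rfl⟩ | ⟨rfl, rfl⟩ <;> simp only at hv ⊢ <;> omega
      · simp only [src_mk, tgt_true] at hi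
        rw [mem_RE_true] at hg
        simp only [Bool.true_eq_false, false_and, true_and, false_or, or_false] at hg
        rcases hi with ⟨rfl, rfl⟩ | ⟨rfl, rfl⟩ <;> simp only at hv ⊢ <;> omega
    · intro x hx x' hx' hxz hxz'
      rw [sd_le] at hxz hxz'
      rw [Set.mem_ofPred_eq] at hx hx'
      apply rect_conn (p1 := z.1 - R) (p2 := z.1 + R) (q1 := z.2 - R) (q2 := 0)
      · intro g hg
        apply h2
        · obtain ⟨a, b, _ | _⟩ := g
          · rw [mem_RE_false] at hg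
            rw [dl_f, mem_RE_true]
            omega
          · rw [mem_RE_true] at hg
            rw [dl_t, mem_RE_false]
            omega
        · unfold Dm.edges Dm.wir
          rw [Set.mem_ofPred_eq]
          obtain ⟨a, b, _ | _⟩ := g
          · rw [mem_RE_false] at hg
            left
            rw [mem_RE_false]
            omega
          · rw [mem_RE_true] at hg
            rw [mem_RE_true]
            simp only [Bool.true_eq_false, false_and, true_and, false_or, or_false]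
            by_contra hcon
            have ho : ((a, -1) : Vtx) ∈ D.outer :=
              Or.inl ⟨rfl, by show (0 : ℤ) ≤ a; omega, by show a ≤ D.r; omega⟩
            have := hout _ ho
            rw [le_sd] at this
            simp only at this
            omega
      · unfold inR
        omega
      · unfold inR
        omega
  · -- top
    refine ⟨{v | D.h ≤ v.2}, ?_, ?_⟩
    · intro g hg v v' hi hv
      rw [sd_le] at hv
      rw [Set.mem_ofPred_eq]
      unfold Dm.edges Dm.wir at hg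
      rw [Set.mem_ofPred_eq] at hg
      unfold PI at hi
      obtain ⟨x, y, _ | _⟩ := g
      · simp only [src_mk, tgt_false] at hi
        rw [mem_RE_false] at hg
        simp only [Bool.false_eq_true, false_and, true_and, false_or, or_false] at hg
        rcases hi with ⟨rfl, rfl⟩ | ⟨rfl, rfl⟩ <;> simp only at hv ⊢ <;> omega
      · simp only [src_mk, tgt_true] at hi
        rw [mem_RE_true] at hg
        simp only [Bool.true_eq_false, false_and, true_and, false_or, or_false] at hg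
        rcases hi with ⟨rfl, rfl⟩ | ⟨rfl, rfl⟩ <;> simp only at hv ⊢ <;> omega
    · intro x hx x' hx' hxz hxz'
      rw [sd_le] at hxz hxz'
      rw [Set.mem_ofPred_eq] at hx hx'
      apply rect_conn (p1 := z.1 - R) (p2 := z.1 + R) (q1 := D.h) (q2 := z.2 + R)
      · intro g hg
        apply h2
        · obtain ⟨a, b, _ | _⟩ := g
          · rw [mem_RE_false] at hg
            rw [dl_f, mem_RE_true]
            omega
          · rw [mem_RE_true] at hg
            rw [dl_t, mem_RE_false]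
            omega
        · unfold Dm.edges Dm.wir
          rw [Set.mem_ofPred_eq]
          obtain ⟨a, b, _ | _⟩ := g
          · rw [mem_RE_false] at hg
            left
            rw [mem_RE_false]
            omega
          · rw [mem_RE_true] at hg
            rw [mem_RE_true]
            simp only [Bool.true_eq_false, false_and, true_and, false_or, or_false]
            by_contra hcon
            have ho : ((a, D.h) : Vtx) ∈ D.outer :=
              Or.inr (Or.inr ⟨rfl, by show D.t ≤ a; omega, by show a ≤ D.r; omega⟩)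
            have := hout _ ho
            rw [le_sd] at this
            simp only at this
            omega
      · unfold inR
        omega
      · unfold inR
        omega
  · -- left
    refine ⟨{v | v.1 ≤ D.l}, ?_, ?_⟩
    · intro g hg v v' hi hv
      rw [sd_le] at hv
      rw [Set.mem_ofPred_eq]
      unfold Dm.edges Dm.wir at hg
      rw [Set.mem_ofPred_eq] at hg
      unfold PI at hi
      obtain ⟨x, y, _ | _⟩ := g
      · simp only [src_mk, tgt_false] at hi
        rw [mem_RE_false] at hg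
        simp only [Bool.false_eq_true, false_and, true_and, false_or, or_false] at hg
        rcases hi with ⟨rfl, rfl⟩ | ⟨rfl, rfl⟩ <;> simp only at hv ⊢ <;> omega
      · simp only [src_mk, tgt_true] at hi
        rw [mem_RE_true] at hg
        simp only [Bool.true_eq_false, false_and, true_and, false_or, or_false] at hg
        rcases hi with ⟨rfl, rfl⟩ | ⟨rfl, rfl⟩ <;> simp only at hv ⊢ <;> omega
    · intro x hx x' hx' hxz hxz'
      rw [sd_le] at hxz hxz'
      rw [Set.mem_ofPred_eq] at hx hx'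
      apply rect_conn (p1 := z.1 - R) (p2 := D.l) (q1 := z.2 - R) (q2 := z.2 + R)
      · intro g hg
        apply h2
        · obtain ⟨a, b, _ | _⟩ := g
          · rw [mem_RE_false] at hg
            rw [dl_f, mem_RE_true]
            omega
          · rw [mem_RE_true] at hg
            rw [dl_t, mem_RE_false]
            omega
        · unfold Dm.edges Dm.wir
          rw [Set.mem_ofPred_eq]
          obtain ⟨a, b, _ | _⟩ := g
          · rw [mem_RE_false] at hg
            rw [mem_RE_false]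
            simp only [Bool.false_eq_true, false_and, true_and, false_or, or_false]
            omega
          · rw [mem_RE_true] at hg
            left
            rw [mem_RE_true]
            omega
      · unfold inR
        omega
      · unfold inR
        omega
  · -- right: nothing is close
    have ho : ((D.r, z.2) : Vtx) ∈ D.outer :=
      Or.inr (Or.inl ⟨rfl, by show (-1 : ℤ) ≤ z.2; omega, by show z.2 ≤ D.h; omega⟩)
    have hr := hout _ ho
    rw [le_sd] at hr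
    simp only at hr
    refine ⟨∅, ?_, ?_⟩
    · intro g hg v v' hi hv
      exfalso
      rw [sd_le] at hv
      unfold Dm.edges Dm.wir at hg
      rw [Set.mem_ofPred_eq] at hg
      unfold PI at hi
      obtain ⟨x, y, _ | _⟩ := g
      · simp only [src_mk, tgt_false] at hi
        rw [mem_RE_false] at hg
        simp only [Bool.false_eq_true, false_and, true_and, false_or, or_false] at hg
        rcases hi with ⟨rfl, rfl⟩ | ⟨rfl, rfl⟩ <;> simp only at hv <;> omega
      · simp only [src_mk, tgt_true] at hi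
        rw [mem_RE_true] at hg
        simp only [Bool.true_eq_false, false_and, true_and, false_or, or_false] at hg
        rcases hi with ⟨rfl, rfl⟩ | ⟨rfl, rfl⟩ <;> simp only at hv <;> omega
    · intro x hx
      exact absurd hx (Set.notMem_empty _)

/-- A path which leaves the box uses edges of `A` only, or it visits `X` inside of the box. -/
theorem half {E A : Set Edg} {X : Set Vtx} {z : Vtx} {R : ℕ}
    (hX : ∀ g ∈ E, g ∉ A → ∀ v v', PI g v v' → sd v z ≤ (R : ℤ) → v ∈ X) {v0 u : Vtx}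
    (h0 : sd v0 z ≤ (R : ℤ)) (h : Reach E v0 u) (hu : (R : ℤ) + 1 ≤ sd u z) :
    (∃ w, Reach (E ∩ A) v0 w ∧ (R : ℤ) + 1 ≤ sd w z) ∨
      ∃ x ∈ X, sd x z ≤ (R : ℤ) ∧ Reach E v0 x := by
  have key : ∀ u, Reach E v0 u → ((∃ w, Reach (E ∩ A) v0 w ∧ (R : ℤ) + 1 ≤ sd w z) ∨
      ∃ x ∈ X, sd x z ≤ (R : ℤ) ∧ Reach E v0 x) ∨ (Reach (E ∩ A) v0 u ∧ sd u z ≤ (R : ℤ)) := by
    intro u hu
    induction hu with
    | refl => exact Or.inr ⟨Reach.refl _ _, h0⟩
    | tail hr hs ih =>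
      rename_i v v'
      rcases ih with ih | ⟨ih1, ih2⟩
      · exact Or.inl ih
      · obtain ⟨g, hg, hi⟩ := hs
        by_cases hA : g ∈ A
        · have hr' : Reach (E ∩ A) v0 v' := ih1.trans (Adj.reach ⟨g, ⟨hg, hA⟩, hi⟩)
          by_cases hv' : sd v' z ≤ (R : ℤ)
          · exact Or.inr ⟨hr', hv'⟩
          · exact Or.inl (Or.inl ⟨v', hr', by omega⟩)
        · exact Or.inl (Or.inr ⟨v, hX g hg hA v v' hi ih2, ih2, hr⟩)
  rcases key u h with h1 | ⟨_, h1⟩
  · exact h1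
  · omega

/-! ### The result -/

theorem main : S_WW := by
  intro D hD G B hG z d R ρ hN hd hdR hRρ hB hout hbad
  obtain ⟨e, heG, heF, x, y, z', hx, hyz, hxc, hyK, hzK, w, hw, hδ⟩ := hbad
  have heE : e ∈ D.edges := hG heG
  have hew : e ∉ D.wir := fun h => heF (Or.inr h)
  have heB : e ∈ B := by
    by_contra h
    exact heF (Or.inl (Finset.mem_coe.mpr (Finset.mem_sdiff.mpr ⟨heG, h⟩)))
  have heb : e ∈ blk z d := hB heB
  have hDI : DI e y z' := by
    rcases hyz with ⟨h1, h2⟩ | ⟨h1, h2⟩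
    · exact Or.inl ⟨h1.symm, h2.symm⟩
    · exact Or.inr ⟨h2.symm, h1.symm⟩
  -- the ends and the faces of `e` are close to `z`
  have hpos : (sd (src e) z ≤ (d : ℤ) ∧ sd (tgt e) z ≤ (d : ℤ)) ∧
      sd (dsrc e) z ≤ (d : ℤ) + 1 ∧ sd (dtgt e) z ≤ (d : ℤ) + 1 := by
    rw [sd_le, sd_le, sd_le, sd_le]
    unfold blk at heb
    obtain ⟨a, b, _ | _⟩ := e
    · rw [mem_RE_false] at heb
      simp only [src_mk, tgt_false, dsrc_false, dtgt_mk]
      omega
    · rw [mem_RE_true] at heb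
      simp only [src_mk, tgt_true, dsrc_true, dtgt_mk]
      omega
  obtain ⟨⟨hps, hpt⟩, hpds, hpdt⟩ := hpos
  have hy : sd y z ≤ (d : ℤ) + 1 := by
    rcases hDI with ⟨h1, h2⟩ | ⟨h1, h2⟩
    · rw [← h1]; exact hpds
    · rw [← h2]; exact hpdt
  have hz' : sd z' z ≤ (d : ℤ) + 1 := by
    rcases hDI with ⟨h1, h2⟩ | ⟨h1, h2⟩
    · rw [← h2]; exact hpdt
    · rw [← h1]; exact hpds
  have hwz : (R : ℤ) + 3 ≤ sd w z := by
    have hw1 : (R : ℤ) + d + 4 ≤ sd z' w := by
      have : ((R + d + 4 : ℕ) : ℤ) ≤ (ρ : ℤ) := by exact_mod_cast hRρ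
      push_cast at this
      omega
    rw [le_sd] at hw1
    rw [sd_le] at hz'
    rw [le_sd]
    omega
  obtain ⟨g0, hg0, hr0⟩ := hyK
  have hyK : y ∈ D.dclu G := ⟨g0, hg0, hr0⟩
  have hg0z := hout g0 hg0
  constructor
  · -- the two dual arms
    obtain ⟨f, g, hf, hg, hyf, hfg⟩ := cut_dual hdR (by omega : (R : ℤ) ≤ sd g0 z) hr0.symm hy
    obtain ⟨f', g', hf', hg', hzf, hfg'⟩ := cut_dual hdR (by omega : (R : ℤ) ≤ sd w z) hδ hz'
    have hfK : f ∈ D.dclu G := ⟨g0, hg0, hr0.trans hyf⟩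
    have hfK' : f' ∉ D.dclu G := by
      rcases Relation.ReflTransGen.cases_tail hzf with h | ⟨v, _, g1, ⟨_, _, h1, h2⟩, hi⟩
      · rw [h]; exact hzK
      · rcases hi with ⟨h3, h4⟩ | ⟨h3, h4⟩
        · rw [← h4]; exact h2
        · rw [← h3]; exact h1
    have hfW' : f' ∉ WO D := by
      intro hW
      rcases Relation.ReflTransGen.cases_tail hzf with h | ⟨v, _, g1, ⟨h0, h1, _, _⟩, hi⟩
      · rw [h] at hW
        exact hew (WO_wir hD heE (Or.symm hDI) hW)
      · exact h1 (Or.inr (WO_wir hD h0 (Or.symm hi) hW))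
    refine ⟨f, g, f', g', ⟨hf, hg, ?_⟩, ⟨hf', hg', ?_⟩, ?_⟩
    · refine hfg.mono ?_
      rintro g1 ⟨⟨h1, h2⟩, h3⟩
      exact ⟨h1, fun h => h2 (Or.inl h), h3⟩
    · refine hfg'.mono ?_
      rintro g1 ⟨⟨h1, h2, _, _⟩, h3⟩
      refine ⟨h1, fun h => h2 (Or.inl ?_), h3⟩
      have h4 : g1 ∉ B := fun h5 => (mem_AN.mp h3).2 (hB h5)
      exact Finset.mem_coe.mpr (Finset.mem_sdiff.mpr ⟨h, h4⟩)
    · intro hcon
      rcases cE_K hD hfK hcon with h | ⟨h, _⟩
      · exact hfK' h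
      · exact hfW' h
  · -- the open arm
    set C2 : Set Edg := {g | g ∈ D.edges ∧ (g ∉ D.cfg G ∨
      (g ∉ D.cfg (G \ B) ∧ dsrc g ∉ D.dclu G ∧ dtgt g ∉ D.dclu G))} with hC2
    set a := z.1 - R - 1 with ha
    set b := z.1 + (R : ℤ) with hb
    set c := z.2 - R - 1 with hc
    set q := z.2 + (R : ℤ) with hq
    set F : Set Edg := (dl '' C2) ∩ ↑(RE a b c q) with hF
    have hFsub : F ⊆ ↑(RE a b c q) := Set.inter_subset_right
    have heC : e ∉ C2 := by
      rintro ⟨_, h1 | ⟨_, h1, h2⟩⟩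
      · exact h1 (Or.inl (Finset.mem_coe.mpr heG))
      · rcases hDI with ⟨h3, h4⟩ | ⟨h3, h4⟩
        · rw [h3] at h1; exact h1 hyK
        · rw [h4] at h2; exact h2 hyK
    have heF' : dl e ∉ F := by
      rintro ⟨⟨e', he', h⟩, _⟩
      rw [dl.injective h] at he'
      exact heC he'
    have heR : dl e ∈ RE a b c q := by
      unfold blk at heb
      obtain ⟨a1, b1, _ | _⟩ := e
      · rw [mem_RE_false] at heb
        rw [dl_f, mem_RE_true]
        omega
      · rw [mem_RE_true] at heb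
        rw [dl_t, mem_RE_false]
        omega
    have exitF : ∀ v u : Vtx, sd v z ≤ (d : ℤ) + 1 → DReach C2 v u → (R : ℤ) + 2 ≤ sd u z →
        ∃ w ∈ bdR a b c q, Reach F v w := by
      intro v u hv hr hu
      rw [sd_le] at hv
      rw [le_sd] at hu
      obtain ⟨w, h1, h2, h3⟩ := first_exit (G := dl '' C2) (a := a) (b := b) (c := c) (d := q)
        (u := v) (v := u) (by unfold inR; omega) (reach_dl.mpr hr) (by omega)
      exact ⟨w, ⟨h1, h2⟩, h3⟩
    have hyb : ∃ w ∈ bdR a b c q, Reach F y w := by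
      refine exitF y g0 hy (hr0.symm.mono ?_) hg0z
      rintro g ⟨h1, h2⟩
      exact ⟨h1, Or.inl h2⟩
    have hzb : ∃ w ∈ bdR a b c q, Reach F z' w := by
      refine exitF z' w hz' (hδ.mono ?_) (by omega)
      rintro g ⟨h1, h2, h3, h4⟩
      exact ⟨h1, Or.inr ⟨h2, h3, h4⟩⟩
    have hstay : ∀ v, DReach C2 y v → v ∈ D.dclu G := by
      intro v hv
      induction hv with
      | refl => exact hyK
      | tail _ hs ih =>
        obtain ⟨g, ⟨h1, h2⟩, hi⟩ := hs
        rcases h2 with h2 | ⟨_, h2, h3⟩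
        · exact dclu_step h1 h2 hi ih
        · exfalso
          rcases hi with ⟨h4, h5⟩ | ⟨h4, h5⟩
          · rw [h4] at h2; exact h2 ih
          · rw [h5] at h3; exact h3 ih
    have hnc : ¬ Reach F y z' := by
      intro h
      exact hzK (hstay z' (reach_dl.mp (h.mono Set.inter_subset_left)))
    have hu : ∃ w ∈ bdR a b c q, Reach F (src (dl e)) w := by
      rw [src_dl]
      rcases hDI with ⟨h1, h2⟩ | ⟨h1, h2⟩
      · rw [h1]; exact hyb
      · rw [h1]; exact hzb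
    have hv : ∃ w ∈ bdR a b c q, Reach F (tgt (dl e)) w := by
      rw [tgt_dl]
      rcases hDI with ⟨h1, h2⟩ | ⟨h1, h2⟩
      · rw [h2]; exact hzb
      · rw [h2]; exact hyb
    have huv : ¬ Reach F (src (dl e)) (tgt (dl e)) := by
      rw [src_dl, tgt_dl]
      rcases hDI with ⟨h1, h2⟩ | ⟨h1, h2⟩
      · rw [h1, h2]; exact hnc
      · rw [h1, h2]; exact fun h => hnc h.symm
    have hsep := dual_sep hFsub heR heF' hu hv
    obtain ⟨p1, hp1, hr1⟩ := dual_arm hFsub heR heF' hu hv huv (Or.inl ⟨rfl, rfl⟩)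
    obtain ⟨p2, hp2, hr2⟩ := dual_arm hFsub heR heF' hu hv huv (Or.inr ⟨rfl, rfl⟩)
    set E : Set Edg := {g | dl g ∈ (↑(RE a b c q) \ F) \ {dl e}} with hE
    have hr1' : Reach E (src e) (sh p1) := by
      have := reach_sh hr1
      rwa [dsrc_dl, sh_us] at this
    have hr2' : Reach E (tgt e) (sh p2) := by
      have := reach_sh hr2
      rwa [dtgt_dl, sh_us] at this
    have hsep' : ¬ Reach E (src e) (tgt e) := by
      intro h
      apply hsep
      rw [dsrc_dl, dtgt_dl]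
      exact dreach_us h
    have hE1 : ∀ g ∈ E, g ∉ (↑G : Set Edg) → g ∉ D.edges ∨ g ∈ D.wir := by
      rintro g ⟨⟨h1, h2⟩, h3⟩ hgG
      by_contra hcon
      push Not at hcon
      apply h2
      refine ⟨⟨g, ⟨hcon.1, Or.inl ?_⟩, rfl⟩, h1⟩
      rintro (h | h)
      · exact hgG h
      · exact hcon.2 h
    have hE2 : ∀ g : Edg, dl g ∈ RE a b c q → (g ∉ D.edges ∨ g ∈ D.wir) → g ∈ E := by
      intro g h1 h2
      refine ⟨⟨h1, ?_⟩, ?_⟩
      · rintro ⟨⟨g', hg', h⟩, _⟩
        rw [dl.injective h] at hg'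
        obtain ⟨h3, h4⟩ := hg'
        rcases h2 with h2 | h2
        · exact h2 h3
        · rcases h4 with h4 | ⟨h4, _⟩
          · exact h4 (Or.inr h2)
          · exact h4 (Or.inr h2)
      · intro h
        have h' : g = e := dl.injective h
        rw [h'] at h2
        rcases h2 with h2 | h2
        · exact h2 heE
        · exact hew h2
    obtain ⟨X, hX1, hX2⟩ := exX hD hN hout hE2
    have hout' : ∀ p : Vtx, p ∈ outF a b c q → (R : ℤ) + 1 ≤ sd (sh p) z := by
      intro p hp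
      rw [le_sd]
      unfold outF at hp
      rw [Set.mem_ofPred_eq] at hp
      unfold sh
      simp only
      omega
    have hXg : ∀ g ∈ E, g ∉ (↑G : Set Edg) → ∀ v v', PI g v v' → sd v z ≤ (R : ℤ) → v ∈ X :=
      fun g hg hgG v v' hi hv => hX1 g (hE1 g hg hgG) v v' hi hv
    have fin : ∀ v0 u, sd v0 z ≤ (d : ℤ) → Reach (E ∩ ↑G) v0 u → (R : ℤ) + 1 ≤ sd u z →
        OAr z d R G := by
      intro v0 u h1 h2 h3
      obtain ⟨f, g, k1, k2, k3⟩ := cut_primal hdR (by omega : (R : ℤ) ≤ sd u z) h2 h1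
      refine ⟨f, g, k1, k2, k3.mono ?_⟩
      rintro g1 ⟨⟨_, h5⟩, h6⟩
      exact ⟨h5, h6⟩
    rcases half hXg (by omega : sd (src e) z ≤ (R : ℤ)) hr1' (hout' p1 hp1) with
      ⟨u, h1, h2⟩ | ⟨x1, h1, h2, h3⟩
    · exact fin _ u hps h1 h2
    rcases half hXg (by omega : sd (tgt e) z ≤ (R : ℤ)) hr2' (hout' p2 hp2) with
      ⟨u, h1', h2'⟩ | ⟨x2, h1', h2', h3'⟩
    · exact fin _ u hpt h1' h2'
    exact absurd (h3.trans ((hX2 x1 h1 x2 h1' h2 h2').trans h3'.symm)) hsep'

end Pool.Agent.N262.PN.WW
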